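import Mathlib

/-!
# Monotone sweeps in the lions and contamination problem

* Two lions can sweep `K_{2,3}`, but no sweep of `K_{2,3}` by two lions is monotonic.
* If one lion can sweep a graph then there is a monotonic sweep by one lion.
* If `k` lions can sweep a graph with at most four vertices then there is a monotonic sweep by
  `k` lions.

So the smallest counterexample to monotonicity has two lions and five vertices.
-/

namespace Pool.Agent.Results.MP_95728c_co.MonotoneSweeps

section Defs

variable {V : Type*}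

/-- Each lion stays or moves along an edge. -/
def Legal (G : SimpleGraph V) {k : ℕ} (p q : Fin k → V) : Prop := ∀ i, p i = q i ∨ G.Adj (p i) (q i)

/-- The set of cleared vertices after a step in which lion `i` moves from `p i` to `q i`, when the
set of cleared vertices before the step is `C`. -/
def nextCleared (G : SimpleGraph V) {k : ℕ} (p q : Fin k → V) (C : Set V) : Set V :=
  {v | (∃ i, q i = v) ∨ (v ∈ C ∧ ∀ u, G.Adj v u → u ∉ C → ∃ i, p i = v ∧ q i = u)}

/-- The set of cleared vertices at time `t` if lion `i` is at `P t i` at time `t`. -/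
def cleared (G : SimpleGraph V) {k : ℕ} (P : ℕ → Fin k → V) : ℕ → Set V
  | 0 => Set.range (P 0)
  | t + 1 => nextCleared G (P t) (P (t + 1)) (cleared G P t)

/-- `G` admits a sweep by `k` lions. -/
def Sweepable (G : SimpleGraph V) (k : ℕ) : Prop :=
  ∃ (P : ℕ → Fin k → V) (T : ℕ), (∀ t, Legal G (P t) (P (t + 1))) ∧ cleared G P T = Set.univ

/-- `G` admits a monotonic sweep by `k` lions. -/
def MonoSweepable (G : SimpleGraph V) (k : ℕ) : Prop :=
  ∃ (P : ℕ → Fin k → V) (T : ℕ), (∀ t, Legal G (P t) (P (t + 1))) ∧ cleared G P T = Set.univ ∧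
    ∀ t < T, cleared G P t ⊆ cleared G P (t + 1)

theorem nextCleared_mono (G : SimpleGraph V) {k : ℕ} (p q : Fin k → V) {C D : Set V}
    (h : C ⊆ D) : nextCleared G p q C ⊆ nextCleared G p q D := by
  rintro v (hv | ⟨hv, hu⟩)
  · exact Or.inl hv
  · exact Or.inr ⟨h hv, fun u hu1 hu2 => hu u hu1 fun hu3 => hu2 (h hu3)⟩

/-- States from which the lions win by monotone moves. -/
inductive Win (G : SimpleGraph V) {k : ℕ} : (Fin k → V) → Set V → Prop
  | done (p : Fin k → V) : Win G p Set.univ
  | step (p q : Fin k → V) (C : Set V) (hl : Legal G p q) (hC : C ⊆ nextCleared G p q C)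
      (h : Win G q (nextCleared G p q C)) : Win G p C

/-- Cleared sets with an arbitrary initial cleared set. -/
def clearedFrom (G : SimpleGraph V) {k : ℕ} (C : Set V) (P : ℕ → Fin k → V) : ℕ → Set V
  | 0 => C
  | t + 1 => nextCleared G (P t) (P (t + 1)) (clearedFrom G C P t)

theorem cleared_eq (G : SimpleGraph V) {k : ℕ} (P : ℕ → Fin k → V) (t : ℕ) :
    cleared G P t = clearedFrom G (Set.range (P 0)) P t := by
  induction t with
  | zero => rfl
  | succ t ih => rw [cleared, clearedFrom, ih]

theorem clearedFrom_shift (G : SimpleGraph V) {k : ℕ} (C : Set V) (P : ℕ → Fin k → V) (t : ℕ) :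
    clearedFrom G C P (t + 1) =
      clearedFrom G (nextCleared G (P 0) (P 1) C) (fun t => P (t + 1)) t := by
  induction t with
  | zero => rfl
  | succ t ih =>
    rw [clearedFrom, ih]
    rfl

theorem Win.exists_route {G : SimpleGraph V} {k : ℕ} {p : Fin k → V} {C : Set V}
    (h : Win G p C) : ∃ (P : ℕ → Fin k → V) (T : ℕ), P 0 = p ∧
      (∀ t, Legal G (P t) (P (t + 1))) ∧ clearedFrom G C P T = Set.univ ∧
      ∀ t < T, clearedFrom G C P t ⊆ clearedFrom G C P (t + 1) := by
  induction h with
  | done p => exact ⟨fun _ => p, 0, rfl, fun _ _ => Or.inl rfl, rfl, fun t ht => by omega⟩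
  | step p q C hl hC _ ih =>
    obtain ⟨P, T, h0, h1, h2, h3⟩ := ih
    let Q : ℕ → Fin k → V := fun t => Nat.casesOn t p P
    have hQ : (fun t => Q (t + 1)) = P := rfl
    have hQ0 : Q 0 = p := rfl
    have hQ1 : Q 1 = q := h0
    refine ⟨Q, T + 1, rfl, ?_, ?_, ?_⟩
    · intro t
      cases t with
      | zero =>
        show Legal G p (Q 1)
        rw [hQ1]
        exact hl
      | succ t => exact h1 t
    · rw [clearedFrom_shift, hQ0, hQ1, hQ]
      exact h2
    · intro t ht
      cases t with
      | zero =>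
        rw [clearedFrom_shift, hQ0, hQ1, hQ]
        exact hC
      | succ t =>
        rw [clearedFrom_shift, clearedFrom_shift, hQ0, hQ1, hQ]
        exact h3 t (by omega)

theorem Win.monoSweepable {G : SimpleGraph V} {k : ℕ} {p : Fin k → V}
    (h : Win G p (Set.range p)) : MonoSweepable G k := by
  obtain ⟨P, T, h0, h1, h2, h3⟩ := h.exists_route
  refine ⟨P, T, h1, ?_, fun t ht => ?_⟩
  · rw [cleared_eq, h0]
    exact h2
  · rw [cleared_eq, cleared_eq, h0]
    exact h3 t ht

/-- A closed family of states that does not contain a cleared graph shows that there is no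
sweep. -/
theorem not_sweepable_of_invariant {G : SimpleGraph V} {k : ℕ} (I : (Fin k → V) → Set V → Prop)
    (h0 : ∀ p, I p (Set.range p)) (h1 : ∀ p q C, Legal G p q → I p C → I q (nextCleared G p q C))
    (h2 : ∀ p, ¬ I p Set.univ) : ¬ Sweepable G k := by
  rintro ⟨P, T, hP, hT⟩
  have key : ∀ t, I (P t) (cleared G P t) := by
    intro t
    induction t with
    | zero => exact h0 _
    | succ t ih => exact h1 _ _ _ (hP t) ih
  have := key T
  rw [hT] at this
  exact h2 _ this

end Defs

/-! ### One lion -/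

section OneLion

variable {V : Type*} {G : SimpleGraph V}

/-- A graph with a vertex of degree at least three cannot be swept by one lion. -/
theorem not_sweepable_of_claw (b : V) (a : Fin 3 → V) (ha : Function.Injective a)
    (hab : ∀ i, G.Adj b (a i)) : ¬ Sweepable G 1 := by
  have hne : ∀ i, a i ≠ b := fun i => (hab i).ne'
  have other1 : ∀ x : V, ∃ i, a i ≠ x := by
    intro x
    by_cases h : a 0 = x
    · refine ⟨1, fun h' => ?_⟩
      have := ha (h.trans h'.symm)
      exact absurd this (by decide)
    · exact ⟨0, h⟩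
  have other2 : ∀ x : V, ∃ i j, i ≠ j ∧ a i ≠ x ∧ a j ≠ x := by
    intro x
    by_cases h0 : a 0 = x
    · refine ⟨1, 2, by decide, fun h' => ?_, fun h' => ?_⟩
      · exact absurd (ha (h0.trans h'.symm)) (by decide)
      · exact absurd (ha (h0.trans h'.symm)) (by decide)
    · by_cases h1 : a 1 = x
      · refine ⟨0, 2, by decide, h0, fun h' => ?_⟩
        exact absurd (ha (h1.trans h'.symm)) (by decide)
      · exact ⟨0, 1, by decide, h0, h1⟩
  refine not_sweepable_of_invariant
    (fun p C => (p 0 = b ∧ ∃ i j, i ≠ j ∧ a i ∉ C ∧ a j ∉ C) ∨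
      (p 0 ≠ b ∧ b ∉ C ∧ ∃ j, a j ≠ p 0 ∧ a j ∉ C)) ?_ ?_ ?_
  · intro p
    have hr : ∀ v, v ∉ Set.range p ↔ v ≠ p 0 := by
      intro v
      simp only [Set.mem_range, not_exists, ne_eq]
      constructor
      · intro h h'
        exact h 0 h'.symm
      · intro h i h'
        rw [Subsingleton.elim i 0] at h'
        exact h h'.symm
    by_cases hb : p 0 = b
    · left
      refine ⟨hb, 0, 1, by decide, ?_, ?_⟩
      · rw [hr, hb]; exact hne 0
      · rw [hr, hb]; exact hne 1
    · right
      obtain ⟨i, hi⟩ := other1 (p 0)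
      refine ⟨hb, ?_, i, hi, ?_⟩
      · rw [hr]; exact fun h => hb h.symm
      · rw [hr]; exact hi
  · intro p q C hl hI
    have hn : ∀ v, v ∉ nextCleared G p q C ↔ v ≠ q 0 ∧ (v ∉ C ∨ ∃ u, G.Adj v u ∧ u ∉ C ∧
        ¬ (p 0 = v ∧ q 0 = u)) := by
      intro v
      simp only [nextCleared, Set.mem_ofPred_eq, Fin.exists_fin_one, not_or, not_and, ne_eq]
      constructor
      · rintro ⟨h1, h2⟩
        refine ⟨fun h => h1 h.symm, ?_⟩
        by_cases hv : v ∈ C
        · right
          have := h2 hv
          push Not at this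
          obtain ⟨u, hu1, hu2, hu3⟩ := this
          exact ⟨u, hu1, hu2, hu3⟩
        · exact Or.inl hv
      · rintro ⟨h1, h2⟩
        refine ⟨fun h => h1 h.symm, fun hv => ?_⟩
        push Not
        rcases h2 with h2 | ⟨u, hu1, hu2, hu3⟩
        · exact absurd hv h2
        · exact ⟨u, hu1, hu2, hu3⟩
    simp only [hn]
    rcases hI with ⟨hb, i, j, hij, hi, hj⟩ | ⟨hb, hbC, j, hjx, hjC⟩
    · by_cases hqb : q 0 = b
      · left
        exact ⟨hqb, i, j, hij, ⟨by rw [hqb]; exact hne i, Or.inl hi⟩,
          ⟨by rw [hqb]; exact hne j, Or.inl hj⟩⟩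
      · right
        obtain ⟨l, hl1, hl2⟩ : ∃ l, a l ≠ q 0 ∧ a l ∉ C := by
          by_cases h : a i = q 0
          · refine ⟨j, fun h' => hij (ha (h.trans h'.symm)), hj⟩
          · exact ⟨i, h, hi⟩
        exact ⟨hqb, ⟨fun h => hqb h.symm, Or.inr ⟨a l, hab l, hl2, fun h => hl1 h.2.symm⟩⟩,
          l, hl1, hl1, Or.inl hl2⟩
    · by_cases hqb : q 0 = b
      · left
        obtain ⟨l, m, hlm, h1, h2⟩ := other2 (p 0)
        exact ⟨hqb, l, m, hlm,
          ⟨by rw [hqb]; exact hne l, Or.inr ⟨b, (hab l).symm, hbC, fun h => h1 h.1.symm⟩⟩,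
          ⟨by rw [hqb]; exact hne m, Or.inr ⟨b, (hab m).symm, hbC, fun h => h2 h.1.symm⟩⟩⟩
      · right
        obtain ⟨l, hl1⟩ := other1 (q 0)
        exact ⟨hqb, ⟨fun h => hqb h.symm, Or.inl hbC⟩, l, hl1, hl1,
          Or.inr ⟨b, (hab l).symm, hbC, fun h => hqb h.2⟩⟩
  · intro p hI
    rcases hI with ⟨-, i, j, -, hi, -⟩ | ⟨-, hb, -⟩
    · exact hi (Set.mem_univ _)
    · exact hb (Set.mem_univ _)

/-- A nontrivial graph in which every vertex has two different neighbours cannot be swept by one
lion. -/
theorem not_sweepable_of_two_le [Nontrivial V]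
    (h : ∀ v, ∃ u u', u ≠ u' ∧ G.Adj v u ∧ G.Adj v u') : ¬ Sweepable G 1 := by
  refine not_sweepable_of_invariant (fun p C => C = {p 0}) ?_ ?_ ?_
  · intro p
    ext v
    constructor
    · rintro ⟨i, rfl⟩
      rw [Subsingleton.elim i 0]
      rfl
    · rintro rfl
      exact ⟨0, rfl⟩
  · rintro p q C - rfl
    ext v
    constructor
    · rintro (⟨i, rfl⟩ | ⟨hv, hu⟩)
      · rw [Subsingleton.elim i 0]
        rfl
      · obtain rfl : v = p 0 := hv
        obtain ⟨u, u', hne, h1, h2⟩ := h (p 0)
        obtain ⟨i, -, h3⟩ := hu u h1 h1.ne'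
        obtain ⟨j, -, h4⟩ := hu u' h2 h2.ne'
        rw [Subsingleton.elim i j] at h3
        exact absurd (h3.symm.trans h4) hne
    · rintro rfl
      exact Or.inl ⟨0, rfl⟩
  · intro p hp
    obtain ⟨x, hx⟩ := exists_ne (p 0)
    have : x ∈ ({p 0} : Set V) := by rw [← hp]; exact Set.mem_univ x
    exact hx this

/-- The vertices cleared by one lion are reachable from its starting vertex. -/
theorem reachable_of_cleared (P : ℕ → Fin 1 → V) (hP : ∀ t, Legal G (P t) (P (t + 1))) (t : ℕ) :
    G.Reachable (P 0 0) (P t 0) ∧ ∀ v ∈ cleared G P t, G.Reachable (P 0 0) v := by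
  induction t with
  | zero =>
    refine ⟨SimpleGraph.Reachable.refl _, ?_⟩
    rintro _ ⟨i, rfl⟩
    rw [Subsingleton.elim i 0]
  | succ t ih =>
    have h : G.Reachable (P 0 0) (P (t + 1) 0) := by
      rcases hP t 0 with h | h
      · rw [← h]; exact ih.1
      · exact ih.1.trans h.reachable
    refine ⟨h, ?_⟩
    rintro v (⟨i, rfl⟩ | ⟨hv, -⟩)
    · rw [Subsingleton.elim i 0]
      exact h
    · exact ih.2 v hv

theorem exists_boundary (hconn : G.Preconnected) {C : Set V} {x y : V} (hx : x ∈ C) (hy : y ∉ C) :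
    ∃ v ∈ C, ∃ u ∉ C, G.Adj v u := by
  obtain ⟨p⟩ := hconn x y
  induction p with
  | nil => exact absurd hx hy
  | @cons a b c h p ih =>
    by_cases hb : b ∈ C
    · exact ih hb hy
    · exact ⟨a, hx, b, hb, h⟩

/-- In a connected graph without vertices of degree at least three, the lion at `x` can clear the
graph monotonically if `x` is the only cleared vertex with a contaminated neighbour and it has at
most one such neighbour. -/
theorem win_of_path [Finite V] (hconn : G.Preconnected)
    (h3 : ∀ v a b c, G.Adj v a → G.Adj v b → G.Adj v c → a ≠ b → a ≠ c → b = c) :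
    ∀ (n : ℕ) (x : V) (C : Set V), (Cᶜ).ncard = n → x ∈ C →
      (∀ v ∈ C, v ≠ x → ∀ u, G.Adj v u → u ∈ C) →
      (∀ u u', G.Adj x u → G.Adj x u' → u ∉ C → u' ∉ C → u = u') →
      Win G (fun _ : Fin 1 => x) C := by
  intro n
  induction n with
  | zero =>
    intro x C hn _ _ _
    rw [Set.ncard_eq_zero] at hn
    have : C = Set.univ := by rwa [Set.compl_empty_iff] at hn
    rw [this]
    exact Win.done _
  | succ n ih =>
    intro x C hn hx h1 h2
    obtain ⟨y, hy⟩ : (Cᶜ).Nonempty := by
      rw [← Set.ncard_pos]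
      omega
    obtain ⟨v, hv, u, hu, hvu⟩ := exists_boundary hconn hx hy
    have hvx : v = x := by
      by_contra hne
      exact hu (h1 v hv hne u hvu)
    subst hvx
    have hnext : nextCleared G (fun _ : Fin 1 => v) (fun _ => u) C = insert u C := by
      ext w
      constructor
      · rintro (⟨i, rfl⟩ | ⟨hw, -⟩)
        · exact Or.inl rfl
        · exact Or.inr hw
      · rintro (rfl | hw)
        · exact Or.inl ⟨0, rfl⟩
        · refine Or.inr ⟨hw, fun z hz hzC => ?_⟩
          by_cases hwv : w = v
          · subst hwv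
            exact ⟨0, rfl, h2 u z hvu hz hu hzC⟩
          · exact absurd (h1 w hw hwv z hz) hzC
    refine Win.step _ (fun _ => u) C (fun _ => Or.inr hvu) ?_ ?_
    · rw [hnext]
      exact Set.subset_insert _ _
    · rw [hnext]
      apply ih
      · have : (insert u C)ᶜ = Cᶜ \ {u} := by
          ext w
          simp only [Set.mem_compl_iff, Set.mem_insert_iff, not_or, Set.mem_sdiff,
            Set.mem_singleton_iff]
          tauto
        rw [this, Set.ncard_sdiff_singleton_of_mem hu, hn]
        rfl
      · exact Or.inl rfl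
      · intro w hw hwu z hz
        rcases hw with rfl | hw
        · exact absurd rfl hwu
        · by_cases hwv : w = v
          · subst hwv
            by_cases hzC : z ∈ C
            · exact Or.inr hzC
            · exact Or.inl (h2 z u hz hvu hzC hu)
          · exact Or.inr (h1 w hw hwv z hz)
      · intro z z' hz hz' hzC hzC'
        have hzv : z ≠ v := fun h => hzC (Or.inr (h ▸ hv))
        have hzv' : z' ≠ v := fun h => hzC' (Or.inr (h ▸ hv))
        exact h3 u v z z' hvu.symm hz hz' hzv.symm hzv'.symm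

/-- **One lion**: a sweep by one lion can be made monotonic. -/
theorem one_lion [Finite V] (h : Sweepable G 1) : MonoSweepable G 1 := by
  have h' := h
  obtain ⟨P, T, hP, hT⟩ := h'
  rcases subsingleton_or_nontrivial V with hs | hn
  · refine Win.monoSweepable (p := P 0) ?_
    have : Set.range (P 0) = Set.univ := by
      ext v
      simp only [Set.mem_univ, iff_true]
      exact ⟨0, Subsingleton.elim _ _⟩
    rw [this]
    exact Win.done _
  · have hconn : G.Preconnected := by
      have hr : ∀ v, G.Reachable (P 0 0) v := fun v =>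
        (reachable_of_cleared P hP T).2 v (by rw [hT]; exact Set.mem_univ v)
      exact fun u v => (hr u).symm.trans (hr v)
    have h3 : ∀ v a b c, G.Adj v a → G.Adj v b → G.Adj v c → a ≠ b → a ≠ c → b = c := by
      intro v a b c ha hb hc hab hac
      by_contra hbc
      refine not_sweepable_of_claw v ![a, b, c] ?_ ?_ h
      · intro i j hij
        fin_cases i <;> fin_cases j <;> first | rfl | (exfalso; simp_all)
      · intro i
        fin_cases i
        · exact ha
        · exact hb
        · exact hc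
    obtain ⟨x, hx⟩ : ∃ x, ∀ u u', G.Adj x u → G.Adj x u' → u = u' := by
      by_contra hno
      push Not at hno
      refine not_sweepable_of_two_le (fun v => ?_) h
      obtain ⟨u, u', h1, h2, h3⟩ := hno v
      exact ⟨u, u', h3, h1, h2⟩
    have hw := win_of_path hconn h3 (({x} : Set V)ᶜ).ncard x {x} rfl rfl
      (fun v hv hvx => absurd hv hvx) (fun u u' hu hu' _ _ => hx u u' hu hu')
    refine Win.monoSweepable (p := fun _ => x) ?_
    have : Set.range (fun _ : Fin 1 => x) = {x} := Set.range_const
    rw [this]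
    exact hw

end OneLion

/-! ### Many lions -/

section ManyLions

variable {V : Type*} {G : SimpleGraph V}

theorem mono_of_card_le [Fintype V] [Nonempty V] {k : ℕ} (hk : Fintype.card V ≤ k) :
    MonoSweepable G k := by
  classical
  obtain ⟨p, hp⟩ : ∃ p : Fin k → V, Function.Surjective p := by
    have h : Fintype.card V ≤ Fintype.card (Fin k) := by simpa using hk
    obtain ⟨f⟩ := Function.Embedding.nonempty_of_card_le h
    exact ⟨Function.invFun f, Function.invFun_surjective f.injective⟩
  refine Win.monoSweepable (p := p) ?_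
  rw [hp.range_eq]
  exact Win.done _

theorem mono_of_card_eq_succ [Fintype V] {k : ℕ} (hk : Fintype.card V = k + 1)
    (h : Sweepable G k) : MonoSweepable G k := by
  classical
  by_cases hE : ∃ u v, G.Adj u v
  · obtain ⟨u, v, huv⟩ := hE
    have hc : Fintype.card {w : V // w ≠ v} = k := by
      rw [Fintype.card_subtype_compl, Fintype.card_subtype_eq]
      omega
    let e : Fin k ≃ {w : V // w ≠ v} := (Fintype.equivFinOfCardEq hc).symm
    let p : Fin k → V := fun i => (e i).1
    let i₀ : Fin k := e.symm ⟨u, huv.ne⟩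
    have hi₀ : p i₀ = u := by simp [p, i₀]
    have hnext : nextCleared G p (Function.update p i₀ v) (Set.range p) = Set.univ := by
      ext w
      simp only [Set.mem_univ, iff_true]
      by_cases hwv : w = v
      · left
        exact ⟨i₀, by rw [Function.update_self, hwv]⟩
      · by_cases hwu : w = u
        · right
          refine ⟨⟨i₀, by rw [hi₀, hwu]⟩, fun z _ hz2 => ?_⟩
          have hzv : z = v := by
            by_contra hne
            exact hz2 ⟨e.symm ⟨z, hne⟩, by simp [p]⟩
          exact ⟨i₀, by rw [hi₀, hwu], by rw [Function.update_self, hzv]⟩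
        · left
          refine ⟨e.symm ⟨w, hwv⟩, ?_⟩
          rw [Function.update_of_ne]
          · simp [p]
          · intro h
            apply hwu
            have h2 : p (e.symm ⟨w, hwv⟩) = p i₀ := by rw [h]
            rw [hi₀] at h2
            simpa [p] using h2
    refine Win.monoSweepable (p := p) (Win.step p (Function.update p i₀ v) _ ?_ ?_ ?_)
    · intro i
      by_cases hi : i = i₀
      · right
        rw [hi, Function.update_self, hi₀]
        exact huv
      · left
        rw [Function.update_of_ne hi]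
    · rw [hnext]
      exact Set.subset_univ _
    · rw [hnext]
      exact Win.done _
  · push Not at hE
    exfalso
    obtain ⟨P, T, hP, hT⟩ := h
    have hconst : ∀ t, P t = P 0 := by
      intro t
      induction t with
      | zero => rfl
      | succ t ih =>
        rw [← ih]
        funext i
        rcases hP t i with h | h
        · exact h.symm
        · exact absurd h (hE _ _)
    have hcl : ∀ t, cleared G P t ⊆ Set.range (P 0) := by
      intro t
      induction t with
      | zero => exact subset_rfl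
      | succ t ih =>
        rintro v (⟨i, rfl⟩ | ⟨hv, -⟩)
        · rw [hconst (t + 1)]
          exact ⟨i, rfl⟩
        · exact ih hv
    have h1 : (Set.univ : Set V) ⊆ Set.range (P 0) := by
      rw [← hT]
      exact hcl T
    have h2 : Function.Surjective (P 0) := fun v => h1 (Set.mem_univ v)
    have h3 := Fintype.card_le_of_surjective _ h2
    rw [Fintype.card_fin] at h3
    omega

end ManyLions

/-! ### Isomorphisms -/

section Iso

variable {V W : Type*} {G : SimpleGraph V} {H : SimpleGraph W}

theorem cleared_iso (e : G ≃g H) {k : ℕ} (P : ℕ → Fin k → V) (t : ℕ) :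
    cleared H (fun t i => e (P t i)) t = e '' cleared G P t := by
  induction t with
  | zero =>
    ext w
    constructor
    · rintro ⟨i, rfl⟩
      exact ⟨_, ⟨i, rfl⟩, rfl⟩
    · rintro ⟨_, ⟨i, rfl⟩, rfl⟩
      exact ⟨i, rfl⟩
  | succ t ih =>
    rw [cleared, ih]
    ext w
    constructor
    · rintro (⟨i, rfl⟩ | ⟨⟨v, hv, rfl⟩, hu⟩)
      · exact ⟨_, Or.inl ⟨i, rfl⟩, rfl⟩
      · refine ⟨v, Or.inr ⟨hv, fun u hvu huC => ?_⟩, rfl⟩
        obtain ⟨i, h1, h2⟩ := hu (e u) (e.map_adj_iff.2 hvu) (by
          rintro ⟨u', hu', he⟩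
          rw [e.injective he] at hu'
          exact huC hu')
        exact ⟨i, e.injective h1, e.injective h2⟩
    · rintro ⟨v, ⟨i, rfl⟩ | ⟨hv, hu⟩, rfl⟩
      · exact Or.inl ⟨i, rfl⟩
      · refine Or.inr ⟨⟨v, hv, rfl⟩, fun z hz hzC => ?_⟩
        obtain ⟨u, rfl⟩ := e.surjective z
        obtain ⟨i, h1, h2⟩ := hu u (e.map_adj_iff.1 hz) (fun h => hzC ⟨u, h, rfl⟩)
        exact ⟨i, congrArg e h1, congrArg e h2⟩

theorem Sweepable.iso {k : ℕ} (h : Sweepable G k) (e : G ≃g H) : Sweepable H k := by
  obtain ⟨P, T, hP, hT⟩ := h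
  refine ⟨fun t i => e (P t i), T, fun t i => ?_, ?_⟩
  · exact (hP t i).imp (fun h => congrArg e h) (fun h => e.map_adj_iff.2 h)
  · rw [cleared_iso, hT, Set.image_univ]
    exact e.surjective.range_eq

theorem MonoSweepable.iso {k : ℕ} (h : MonoSweepable G k) (e : G ≃g H) : MonoSweepable H k := by
  obtain ⟨P, T, hP, hT, hm⟩ := h
  refine ⟨fun t i => e (P t i), T, fun t i => ?_, ?_, fun t ht => ?_⟩
  · exact (hP t i).imp (fun h => congrArg e h) (fun h => e.map_adj_iff.2 h)
  · rw [cleared_iso, hT, Set.image_univ]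
    exact e.surjective.range_eq
  · rw [cleared_iso, cleared_iso]
    exact Set.image_mono (hm t ht)

end Iso

/-! ### Boolean version for two lions -/

section Bool

variable {n : ℕ}

/-- Staying or moving along an edge. -/
def stepB (adj : Fin n → Fin n → Bool) (a b : Fin n) : Bool := a == b || adj a b

/-- The Boolean version of `nextCleared`. -/
def nextB (adj : Fin n → Fin n → Bool) (p0 p1 q0 q1 : Fin n) (C : Fin n → Bool) (v : Fin n) :
    Bool :=
  q0 == v || q1 == v || (C v && (List.finRange n).all fun u =>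
    !(adj v u) || C u || (p0 == v && q0 == u) || (p1 == v && q1 == u))

theorem mem_next_iff {adj : Fin n → Fin n → Bool} {K : SimpleGraph (Fin n)}
    (hK : ∀ a b, K.Adj a b ↔ adj a b = true)
    (p q : Fin 2 → Fin n) (C : Fin n → Bool) (v : Fin n) :
    v ∈ nextCleared K p q {w | C w = true} ↔ nextB adj (p 0) (p 1) (q 0) (q 1) C v = true := by
  simp only [nextCleared, nextB, Set.mem_ofPred_eq, Bool.or_eq_true, beq_iff_eq, Bool.and_eq_true,
    List.all_eq_true, Bool.not_eq_true', Fin.exists_fin_two]
  constructor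
  · rintro (h | ⟨h1, h2⟩)
    · exact Or.inl h
    · refine Or.inr ⟨h1, fun u _ => ?_⟩
      by_cases ha : adj v u = true
      · by_cases hC : C u = true
        · exact Or.inl (Or.inl (Or.inr hC))
        · rcases h2 u ((hK v u).2 ha) hC with h3 | h3
          · exact Or.inl (Or.inr h3)
          · exact Or.inr h3
      · exact Or.inl (Or.inl (Or.inl (by simpa using ha)))
  · rintro (h | ⟨h1, h2⟩)
    · exact Or.inl h
    · refine Or.inr ⟨h1, fun u hu hC => ?_⟩
      rcases h2 u (List.mem_finRange u) with ((h3 | h3) | h3) | h3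
      · rw [hK, h3] at hu
        simp at hu
      · exact absurd h3 hC
      · exact Or.inl h3
      · exact Or.inr h3

theorem next_eq {adj : Fin n → Fin n → Bool} {K : SimpleGraph (Fin n)}
    (hK : ∀ a b, K.Adj a b ↔ adj a b = true) (p q : Fin 2 → Fin n) (C : Fin n → Bool) :
    nextCleared K p q {w | C w = true} =
      {v | nextB adj (p 0) (p 1) (q 0) (q 1) C v = true} := by
  ext v
  exact mem_next_iff hK p q C v

theorem range_eq (a b : Fin n) :
    Set.range ![a, b] = {v : Fin n | (a == v || b == v) = true} := by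
  ext v
  simp only [Set.mem_ofPred_eq, Bool.or_eq_true, beq_iff_eq]
  constructor
  · rintro ⟨i, rfl⟩
    fin_cases i
    · exact Or.inl rfl
    · exact Or.inr rfl
  · rintro (h | h)
    · exact ⟨0, h⟩
    · exact ⟨1, h⟩

/-- Check of a route with two moves: `r` is the list of the six positions. -/
def routeOk (adj : Fin n → Fin n → Bool) (a0 b0 a1 b1 a2 b2 : Fin n) : Bool :=
  let C0 : Fin n → Bool := fun v => a0 == v || b0 == v
  let C1 : Fin n → Bool := nextB adj a0 b0 a1 b1 C0
  let C2 : Fin n → Bool := nextB adj a1 b1 a2 b2 C1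
  stepB adj a0 a1 && stepB adj b0 b1 && stepB adj a1 a2 && stepB adj b1 b2 &&
    ((List.finRange n).all fun v => !(C0 v) || C1 v) &&
    ((List.finRange n).all fun v => !(C1 v) || C2 v) && (List.finRange n).all fun v => C2 v

theorem mono_of_routeOk {adj : Fin n → Fin n → Bool} {K : SimpleGraph (Fin n)}
    (hK : ∀ a b, K.Adj a b ↔ adj a b = true) {a0 b0 a1 b1 a2 b2 : Fin n}
    (h : routeOk adj a0 b0 a1 b1 a2 b2 = true) : MonoSweepable K 2 := by
  simp only [routeOk, Bool.and_eq_true, List.all_eq_true] at h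
  obtain ⟨⟨⟨⟨⟨⟨h1, h2⟩, h3⟩, h4⟩, h5⟩, h6⟩, h7⟩ := h
  have hl : ∀ a b a' b' : Fin n, stepB adj a a' = true → stepB adj b b' = true →
      Legal K ![a, b] ![a', b'] := by
    intro a b a' b' h h'
    simp only [stepB, Bool.or_eq_true, beq_iff_eq, ← hK] at h h'
    intro i
    fin_cases i
    · exact h
    · exact h'
  refine Win.monoSweepable (p := ![a0, b0]) ?_
  rw [range_eq]
  refine Win.step _ ![a1, b1] _ (hl _ _ _ _ h1 h2) ?_ ?_
  · rw [next_eq hK]
    intro v hv
    have := h5 v (List.mem_finRange v)
    simp only [Bool.or_eq_true, Bool.not_eq_true'] at this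
    rcases this with h | h
    · have hv' : (a0 == v || b0 == v) = true := hv
      rw [h] at hv'
      exact absurd hv' (by simp)
    · exact h
  · rw [next_eq hK]
    refine Win.step _ ![a2, b2] _ (hl _ _ _ _ h3 h4) ?_ ?_
    · rw [next_eq hK]
      intro v hv
      have := h6 v (List.mem_finRange v)
      simp only [Bool.or_eq_true, Bool.not_eq_true'] at this
      rcases this with h | h
      · have hv' : nextB adj a0 b0 a1 b1 (fun v => a0 == v || b0 == v) v = true := hv
        rw [h] at hv'
        exact absurd hv' (by simp)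
      · exact h
    · rw [next_eq hK]
      have : {v | nextB adj (![a1, b1] 0) (![a1, b1] 1) (![a2, b2] 0) (![a2, b2] 1)
          (fun v => nextB adj (![a0, b0] 0) (![a0, b0] 1) (![a1, b1] 0) (![a1, b1] 1)
            (fun v => a0 == v || b0 == v) v) v = true} = Set.univ := by
        ext v
        simp only [Set.mem_univ, iff_true]
        exact h7 v (List.mem_finRange v)
      rw [this]
      exact Win.done _

/-- Check that a family of masks (indexed by pairs of positions) is closed under moves, contains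
the initial states up to inclusion and does not contain a full set. -/
def closedOk (adj : Fin n → Fin n → Bool) (ms : Fin n → Fin n → List ℕ) : Bool :=
  (List.finRange n).all fun a => (List.finRange n).all fun b =>
    ((ms a b).any fun M => Nat.testBit M a.val && Nat.testBit M b.val) &&
    ((ms a b).all fun M => (List.finRange n).any fun v => !(Nat.testBit M v.val)) &&
    ((ms a b).all fun M => (List.finRange n).all fun a' => !(stepB adj a a') ||
      (List.finRange n).all fun b' => !(stepB adj b b') ||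
        (ms a' b').any fun M' => (List.finRange n).all fun v =>
          !(nextB adj a b a' b' (fun w => Nat.testBit M w.val) v) || Nat.testBit M' v.val)

theorem not_sweepable_of_closedOk {adj : Fin n → Fin n → Bool} {K : SimpleGraph (Fin n)}
    (hK : ∀ a b, K.Adj a b ↔ adj a b = true) {ms : Fin n → Fin n → List ℕ}
    (h : closedOk adj ms = true) : ¬ Sweepable K 2 := by
  simp only [closedOk, Bool.and_eq_true, List.all_eq_true, List.any_eq_true, Bool.or_eq_true,
    Bool.not_eq_true'] at h
  refine not_sweepable_of_invariant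
    (fun p C => ∃ M ∈ ms (p 0) (p 1), C ⊆ {w | Nat.testBit M w.val = true}) ?_ ?_ ?_
  · intro p
    obtain ⟨M, hM, h1, h2⟩ := (h (p 0) (List.mem_finRange _) (p 1) (List.mem_finRange _)).1.1
    refine ⟨M, hM, ?_⟩
    rintro _ ⟨i, rfl⟩
    fin_cases i
    · exact h1
    · exact h2
  · rintro p q C hl ⟨M, hM, hsub⟩
    have hstep : ∀ i, stepB adj (p i) (q i) = true := by
      intro i
      simp only [stepB, Bool.or_eq_true, beq_iff_eq, ← hK]
      exact hl i
    have h1 := (h (p 0) (List.mem_finRange _) (p 1) (List.mem_finRange _)).2 M hM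
      (q 0) (List.mem_finRange _)
    rw [hstep 0] at h1
    have h2 := (h1.resolve_left (by simp)) (q 1) (List.mem_finRange _)
    rw [hstep 1] at h2
    obtain ⟨M', hM', h4⟩ := h2.resolve_left (by simp)
    refine ⟨M', hM', ?_⟩
    intro v hv
    have h5 := nextCleared_mono K p q hsub hv
    rw [mem_next_iff hK] at h5
    rcases h4 v (List.mem_finRange v) with h6 | h6
    · rw [h6] at h5
      simp at h5
    · exact h6
  · rintro p ⟨M, hM, hsub⟩
    obtain ⟨v, -, hv⟩ :=
      (h (p 0) (List.mem_finRange _) (p 1) (List.mem_finRange _)).1.2 M hM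
    have : Nat.testBit M v.val = true := hsub (Set.mem_univ v)
    rw [hv] at this
    simp at this

/-- Check that a family of masks is closed under monotone moves. -/
def closedMonoOk (adj : Fin n → Fin n → Bool) (ms : Fin n → Fin n → List ℕ) : Bool :=
  (List.finRange n).all fun a => (List.finRange n).all fun b =>
    ((ms a b).any fun M => (List.finRange n).all fun v =>
      Nat.testBit M v.val == (a == v || b == v)) &&
    ((ms a b).all fun M => (List.finRange n).any fun v => !(Nat.testBit M v.val)) &&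
    ((ms a b).all fun M => (List.finRange n).all fun a' => !(stepB adj a a') ||
      (List.finRange n).all fun b' => !(stepB adj b b') ||
        ((List.finRange n).any fun v => Nat.testBit M v.val &&
          !(nextB adj a b a' b' (fun w => Nat.testBit M w.val) v)) ||
        (ms a' b').any fun M' => (List.finRange n).all fun v =>
          Nat.testBit M' v.val == nextB adj a b a' b' (fun w => Nat.testBit M w.val) v)

theorem not_mono_of_closedMonoOk {adj : Fin n → Fin n → Bool} {K : SimpleGraph (Fin n)}
    (hK : ∀ a b, K.Adj a b ↔ adj a b = true) {ms : Fin n → Fin n → List ℕ}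
    (h : closedMonoOk adj ms = true) : ¬ MonoSweepable K 2 := by
  simp only [closedMonoOk, Bool.and_eq_true, List.all_eq_true, List.any_eq_true, Bool.or_eq_true,
    Bool.not_eq_true', beq_iff_eq] at h
  rintro ⟨P, T, hP, hT, hm⟩
  have key : ∀ t ≤ T, ∃ M ∈ ms (P t 0) (P t 1),
      cleared K P t = {w | Nat.testBit M w.val = true} := by
    intro t
    induction t with
    | zero =>
      intro _
      obtain ⟨M, hM, h1⟩ :=
        (h (P 0 0) (List.mem_finRange _) (P 0 1) (List.mem_finRange _)).1.1
      refine ⟨M, hM, ?_⟩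
      ext v
      rw [Set.mem_ofPred_eq, h1 v (List.mem_finRange v), Bool.or_eq_true, beq_iff_eq, beq_iff_eq]
      constructor
      · rintro ⟨i, rfl⟩
        fin_cases i
        · exact Or.inl rfl
        · exact Or.inr rfl
      · rintro (h | h)
        · exact ⟨0, h⟩
        · exact ⟨1, h⟩
    | succ t ih =>
      intro ht
      obtain ⟨M, hM, hcl⟩ := ih (by omega)
      have hstep : ∀ i, stepB adj (P t i) (P (t + 1) i) = true := by
        intro i
        simp only [stepB, Bool.or_eq_true, beq_iff_eq, ← hK]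
        exact hP t i
      have hnext : cleared K P (t + 1) = {v | nextB adj (P t 0) (P t 1) (P (t + 1) 0)
          (P (t + 1) 1) (fun w => Nat.testBit M w.val) v = true} := by
        rw [cleared, hcl, next_eq hK]
      have hmono := hm t (by omega)
      have h1 := (h (P t 0) (List.mem_finRange _) (P t 1) (List.mem_finRange _)).2 M hM
        (P (t + 1) 0) (List.mem_finRange _)
      rw [hstep 0] at h1
      have h2 := (h1.resolve_left (by simp)) (P (t + 1) 1) (List.mem_finRange _)
      rw [hstep 1] at h2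
      rcases h2 with (h2 | ⟨v, -, hv1, hv2⟩) | ⟨M', hM', h4⟩
      · simp at h2
      · exfalso
        have h5 : v ∈ cleared K P (t + 1) := hmono (by rw [hcl]; exact hv1)
        rw [hnext] at h5
        have h6 : nextB adj (P t 0) (P t 1) (P (t + 1) 0) (P (t + 1) 1)
          (fun w => Nat.testBit M w.val) v = true := h5
        rw [hv2] at h6
        simp at h6
      · refine ⟨M', hM', ?_⟩
        rw [hnext]
        ext v
        rw [Set.mem_ofPred_eq, Set.mem_ofPred_eq, h4 v (List.mem_finRange v)]
  obtain ⟨M, hM, hcl⟩ := key T le_rfl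
  obtain ⟨v, -, hv⟩ :=
    (h (P T 0) (List.mem_finRange _) (P T 1) (List.mem_finRange _)).1.2 M hM
  have h1 : v ∈ cleared K P T := by rw [hT]; exact Set.mem_univ v
  rw [hcl] at h1
  have h2 : Nat.testBit M v.val = true := h1
  rw [hv] at h2
  simp at h2

end Bool

/-! ### Graphs with four vertices and two lions -/

/-- The adjacency on four vertices given by a mask of six bits. -/
def adj4 (m : ℕ) (a b : Fin 4) : Bool :=
  if a.val < b.val then Nat.testBit m (b.val * (b.val - 1) / 2 + a.val)
  else if b.val < a.val then Nat.testBit m (a.val * (a.val - 1) / 2 + b.val) else false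

/-- Routes for two lions on the graphs that can be swept. -/
def routes : List (List (Fin 4)) :=
  [[],
   [],
   [],
   [1, 3, 0, 3, 2, 3],
   [],
   [0, 3, 1, 3, 2, 3],
   [0, 3, 2, 3, 1, 3],
   [],
   [],
   [1, 2, 0, 2, 3, 2],
   [1, 2, 1, 0, 1, 3],
   [0, 1, 0, 0, 2, 3],
   [0, 1, 3, 2, 3, 2],
   [0, 1, 3, 2, 3, 2],
   [0, 2, 3, 1, 3, 1],
   [0, 1, 0, 2, 3, 0],
   [],
   [0, 2, 1, 2, 3, 2],
   [0, 1, 2, 3, 2, 3],
   [0, 1, 2, 3, 2, 3],
   [0, 2, 0, 1, 0, 3],
   [0, 0, 1, 1, 2, 3],
   [0, 3, 2, 1, 2, 1],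
   [0, 0, 1, 2, 3, 0],
   [0, 2, 3, 2, 1, 2],
   [],
   [0, 3, 2, 1, 2, 1],
   [0, 1, 0, 3, 2, 0],
   [0, 2, 3, 1, 3, 1],
   [0, 0, 1, 3, 2, 0],
   [0, 2, 3, 1, 3, 1],
   [0, 2, 0, 1, 0, 3],
   [],
   [0, 2, 1, 3, 1, 3],
   [0, 1, 2, 1, 3, 1],
   [0, 2, 1, 3, 1, 3],
   [0, 1, 0, 2, 0, 3],
   [0, 3, 1, 2, 1, 2],
   [0, 0, 2, 2, 1, 3],
   [0, 0, 1, 2, 0, 3],
   [0, 1, 3, 1, 2, 1],
   [0, 3, 1, 2, 1, 2],
   [],
   [0, 1, 0, 0, 2, 3],
   [0, 1, 3, 2, 3, 2],
   [0, 1, 3, 2, 3, 2],
   [0, 0, 2, 3, 1, 0],
   [0, 1, 0, 2, 0, 3],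
   [0, 1, 0, 3, 0, 2],
   [0, 2, 1, 3, 1, 3],
   [0, 1, 2, 3, 2, 3],
   [0, 1, 2, 3, 2, 3],
   [],
   [0, 0, 1, 1, 2, 3],
   [0, 0, 2, 2, 1, 3],
   [0, 0, 1, 2, 1, 3],
   [0, 0, 3, 3, 1, 2],
   [0, 0, 1, 3, 0, 2],
   [0, 0, 2, 3, 0, 1],
   [0, 1, 0, 3, 0, 2],
   [0, 0, 3, 3, 1, 2],
   [0, 0, 1, 3, 1, 2],
   [0, 0, 2, 3, 1, 1],
   []]

/-- Closed families for the graphs that cannot be swept. -/
def tabs : List (List (List ℕ)) :=
  [[[1], [3], [5], [9], [3], [2], [6], [10], [5], [6], [4], [12], [9], [10], [12], [8]],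
   [[3], [3], [7], [11], [3], [3], [7], [11], [7], [7], [4], [12], [11], [11], [12], [8]],
   [[5], [7], [5], [13], [7], [2], [7], [10], [5], [7], [5], [13], [13], [10], [13], [8]],
   [],
   [[1], [7], [7], [9], [7], [6], [6], [14], [7], [6], [6], [14], [9], [14], [14], [8]],
   [],
   [],
   [[7], [7], [7], [9], [7], [7], [7], [10], [7], [7], [7], [12], [9], [10], [12], [8]],
   [[9], [11], [13], [9], [11], [2], [6], [11], [13], [6], [4], [13], [9], [11], [13], [9]],
   [],
   [],
   [],
   [],
   [],
   [],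
   [],
   [[1], [11], [5], [11], [11], [10], [14], [10], [5], [14], [4], [14], [11], [10], [14], [10]],
   [],
   [],
   [],
   [],
   [],
   [],
   [],
   [],
   [[11], [11], [5], [11], [11], [11], [6], [11], [5], [6], [4], [12], [11], [11], [12], [11]],
   [],
   [],
   [],
   [],
   [],
   [],
   [[1], [3], [13], [13], [3], [2], [14], [14], [13], [14], [12], [12], [13], [14], [12], [12]],
   [],
   [],
   [],
   [],
   [],
   [],
   [],
   [],
   [],
   [[13], [3], [13], [13], [3], [2], [6], [10], [13], [6], [13], [13], [13], [10], [13], [13]],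
   [],
   [],
   [],
   [],
   [],
   [],
   [],
   [],
   [],
   [[1], [3], [5], [9], [3], [14], [14], [14], [5], [14], [14], [14], [9], [14], [14], [14]],
   [],
   [],
   [],
   [],
   [],
   [],
   [],
   [],
   [],
   [],
   [[1], [3], [5], [9], [3], [2], [6], [10], [5], [6], [4], [12], [9], [10], [12], [8]]]

/-- Check for one mask. -/
def ok4 (m : ℕ) : Bool :=
  let r := routes.getD m []
  routeOk (adj4 m) (r.getD 0 0) (r.getD 1 0) (r.getD 2 0) (r.getD 3 0) (r.getD 4 0) (r.getD 5 0) ||
    closedOk (adj4 m) fun a b => (tabs.getD m []).getD (4 * a.val + b.val) []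

theorem ok4_all : ∀ m : Fin 64, ok4 m.val = true := by decide +kernel

theorem exists_mask (b0 b1 b2 b3 b4 b5 : Bool) : ∃ m : Fin 64, Nat.testBit m.val 0 = b0 ∧
    Nat.testBit m.val 1 = b1 ∧ Nat.testBit m.val 2 = b2 ∧ Nat.testBit m.val 3 = b3 ∧
    Nat.testBit m.val 4 = b4 ∧ Nat.testBit m.val 5 = b5 := by
  cases b0 <;> cases b1 <;> cases b2 <;> cases b3 <;> cases b4 <;> cases b5 <;> decide +kernel

theorem four_two (K : SimpleGraph (Fin 4)) (h : Sweepable K 2) : MonoSweepable K 2 := by
  classical
  obtain ⟨m, h0, h1, h2, h3, h4, h5⟩ := exists_mask (decide (K.Adj 0 1)) (decide (K.Adj 0 2))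
    (decide (K.Adj 1 2)) (decide (K.Adj 0 3)) (decide (K.Adj 1 3)) (decide (K.Adj 2 3))
  have hK : ∀ a b, K.Adj a b ↔ adj4 m.val a b = true := by
    have e1 : adj4 m.val 0 1 = Nat.testBit m.val 0 := rfl
    have e2 : adj4 m.val 0 2 = Nat.testBit m.val 1 := rfl
    have e3 : adj4 m.val 1 2 = Nat.testBit m.val 2 := rfl
    have e4 : adj4 m.val 0 3 = Nat.testBit m.val 3 := rfl
    have e5 : adj4 m.val 1 3 = Nat.testBit m.val 4 := rfl
    have e6 : adj4 m.val 2 3 = Nat.testBit m.val 5 := rfl
    have f1 : adj4 m.val 1 0 = Nat.testBit m.val 0 := rfl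
    have f2 : adj4 m.val 2 0 = Nat.testBit m.val 1 := rfl
    have f3 : adj4 m.val 2 1 = Nat.testBit m.val 2 := rfl
    have f4 : adj4 m.val 3 0 = Nat.testBit m.val 3 := rfl
    have f5 : adj4 m.val 3 1 = Nat.testBit m.val 4 := rfl
    have f6 : adj4 m.val 3 2 = Nat.testBit m.val 5 := rfl
    have g1 : adj4 m.val 0 0 = false := rfl
    have g2 : adj4 m.val 1 1 = false := rfl
    have g3 : adj4 m.val 2 2 = false := rfl
    have g4 : adj4 m.val 3 3 = false := rfl
    rw [h0] at e1 f1
    rw [h1] at e2 f2
    rw [h2] at e3 f3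
    rw [h3] at e4 f4
    rw [h4] at e5 f5
    rw [h5] at e6 f6
    intro a b
    fin_cases a <;> fin_cases b
    · exact ⟨fun h => absurd h (K.irrefl), fun h => absurd (g1.symm.trans h) (by simp)⟩
    · show K.Adj 0 1 ↔ adj4 m.val 0 1 = true
      rw [e1, decide_eq_true_iff]
    · show K.Adj 0 2 ↔ adj4 m.val 0 2 = true
      rw [e2, decide_eq_true_iff]
    · show K.Adj 0 3 ↔ adj4 m.val 0 3 = true
      rw [e4, decide_eq_true_iff]
    · show K.Adj 1 0 ↔ adj4 m.val 1 0 = true
      rw [f1, decide_eq_true_iff, K.adj_comm]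
    · exact ⟨fun h => absurd h (K.irrefl), fun h => absurd (g2.symm.trans h) (by simp)⟩
    · show K.Adj 1 2 ↔ adj4 m.val 1 2 = true
      rw [e3, decide_eq_true_iff]
    · show K.Adj 1 3 ↔ adj4 m.val 1 3 = true
      rw [e5, decide_eq_true_iff]
    · show K.Adj 2 0 ↔ adj4 m.val 2 0 = true
      rw [f2, decide_eq_true_iff, K.adj_comm]
    · show K.Adj 2 1 ↔ adj4 m.val 2 1 = true
      rw [f3, decide_eq_true_iff, K.adj_comm]
    · exact ⟨fun h => absurd h (K.irrefl), fun h => absurd (g3.symm.trans h) (by simp)⟩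
    · show K.Adj 2 3 ↔ adj4 m.val 2 3 = true
      rw [e6, decide_eq_true_iff]
    · show K.Adj 3 0 ↔ adj4 m.val 3 0 = true
      rw [f4, decide_eq_true_iff, K.adj_comm]
    · show K.Adj 3 1 ↔ adj4 m.val 3 1 = true
      rw [f5, decide_eq_true_iff, K.adj_comm]
    · show K.Adj 3 2 ↔ adj4 m.val 3 2 = true
      rw [f6, decide_eq_true_iff, K.adj_comm]
    · exact ⟨fun h => absurd h (K.irrefl), fun h => absurd (g4.symm.trans h) (by simp)⟩
  have hm := ok4_all m
  simp only [ok4, Bool.or_eq_true] at hm
  rcases hm with hm | hm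
  · exact mono_of_routeOk hK hm
  · exact absurd h (not_sweepable_of_closedOk hK hm)

/-- **At most four vertices**: a sweep can be made monotonic. -/
theorem small {V : Type*} [Fintype V] (G : SimpleGraph V) (k : ℕ) (hk : 1 ≤ k)
    (hV : Fintype.card V ≤ 4) (h : Sweepable G k) : MonoSweepable G k := by
  have hne : Nonempty V := by
    obtain ⟨P, -⟩ := h
    exact ⟨P 0 ⟨0, hk⟩⟩
  by_cases h1 : Fintype.card V ≤ k
  · exact mono_of_card_le h1
  by_cases h2 : Fintype.card V = k + 1
  · exact mono_of_card_eq_succ h2 h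
  by_cases h3 : k = 1
  · subst h3
    exact one_lion h
  have h4 : k = 2 := by omega
  have h5 : Fintype.card V = 4 := by omega
  subst h4
  let e : V ≃ Fin 4 := Fintype.equivFinOfCardEq h5
  let f : G ≃g G.map e.toEmbedding := SimpleGraph.Iso.map e G
  exact (four_two _ (h.iso f)).iso f.symm

/-! ### The complete bipartite graph `K_{2,3}` -/

/-- The adjacency of `K_{2,3}` with parts `{0, 1, 2}` and `{3, 4}`. -/
def adjK (a b : Fin 5) : Bool := (a.val < 3) != (b.val < 3)

/-- The complete bipartite graph with parts `{0, 1, 2}` and `{3, 4}`. -/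
def K23 : SimpleGraph (Fin 5) where
  Adj a b := adjK a b = true
  symm := ⟨by decide⟩
  loopless := ⟨by decide⟩

/-- The route of the lions. -/
def pos (t : ℕ) : Fin 5 × Fin 5 := [((0 : Fin 5), (3 : Fin 5)), (4, 1), (2, 3)].getD t (4, 0)

/-- The cleared sets. -/
def msk (t : ℕ) : ℕ := [9, 19, 30].getD t 31

theorem sweepable_K23 : Sweepable K23 2 := by
  refine ⟨fun t => ![(pos t).1, (pos t).2], 3, ?_, ?_⟩
  · intro t
    have h1 : ∀ t < 3, stepB adjK (pos t).1 (pos (t + 1)).1 = true ∧
        stepB adjK (pos t).2 (pos (t + 1)).2 = true := by decide +kernel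
    have h2 : ∀ a b : Fin 5, stepB adjK a b = true → a = b ∨ K23.Adj a b := by
      intro a b h
      simp only [stepB, Bool.or_eq_true, beq_iff_eq] at h
      exact h
    by_cases ht : t < 3
    · intro i
      fin_cases i
      · exact h2 _ _ (h1 t ht).1
      · exact h2 _ _ (h1 t ht).2
    · have h3 : ∀ s, 3 ≤ s → pos s = (4, 0) := by
        intro s hs
        unfold pos
        exact List.getD_eq_default _ _ (by simpa using hs)
      have h4 : pos t = pos (t + 1) := by rw [h3 t (by omega), h3 (t + 1) (by omega)]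
      intro i
      left
      simp only [h4]
  · have key : ∀ t ≤ 3, cleared K23 (fun t => ![(pos t).1, (pos t).2]) t =
        {w | Nat.testBit (msk t) w.val = true} := by
      intro t
      induction t with
      | zero =>
        intro _
        have h0 : ∀ w : Fin 5, (((pos 0).1 == w || (pos 0).2 == w) = true) ↔
            Nat.testBit (msk 0) w.val = true := by decide +kernel
        rw [cleared, range_eq]
        ext w
        exact h0 w
      | succ t ih =>
        intro ht
        have h1 : ∀ t < 3, ∀ v : Fin 5, nextB adjK (pos t).1 (pos t).2 (pos (t + 1)).1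
            (pos (t + 1)).2 (fun w => Nat.testBit (msk t) w.val) v =
              Nat.testBit (msk (t + 1)) v.val := by decide +kernel
        rw [cleared, ih (by omega), next_eq (adj := adjK) (fun a b => Iff.rfl)]
        ext v
        rw [Set.mem_ofPred_eq, Set.mem_ofPred_eq, ← h1 t (by omega) v]
        rfl
    rw [key 3 le_rfl]
    ext v
    have : ∀ v : Fin 5, Nat.testBit (msk 3) v.val = true := by decide +kernel
    simp only [Set.mem_ofPred_eq, this v, Set.mem_univ]

/-- The possible cleared sets of monotone play on `K_{2,3}`. -/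
def tabK : List (List ℕ) :=
  [[1],
   [3],
   [5],
   [9],
   [17],
   [3],
   [2],
   [6],
   [10],
   [18],
   [5],
   [6],
   [4],
   [12],
   [20],
   [9],
   [10],
   [12],
   [8],
   [24, 25, 26, 28],
   [17],
   [18],
   [20],
   [24, 25, 26, 28],
   [16]]

theorem tabK_ok : closedMonoOk adjK (fun a b => tabK.getD (5 * a.val + b.val) []) = true := by
  decide +kernel

theorem not_mono_K23 : ¬ MonoSweepable K23 2 :=
  not_mono_of_closedMonoOk (fun _ _ => Iff.rfl) tabK_ok

/-- **Monotonicity fails, and the smallest counterexamples have two lions and five vertices.** -/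
theorem result :
    (∃ G : SimpleGraph (Fin 5), G.Connected ∧ Sweepable G 2 ∧ ¬ MonoSweepable G 2) ∧
    (∀ (V : Type) (_ : Finite V) (G : SimpleGraph V), Sweepable G 1 → MonoSweepable G 1) ∧
    (∀ (V : Type) (_ : Fintype V) (G : SimpleGraph V) (k : ℕ), 1 ≤ k → Fintype.card V ≤ 4 →
      Sweepable G k → MonoSweepable G k) := by
  refine ⟨⟨K23, ?_, sweepable_K23, not_mono_K23⟩, fun V _ G h => one_lion h,
    fun V _ G k hk hV h => small G k hk hV h⟩
  have h : ∀ v : Fin 5, v = 3 ∨ adjK 3 v = true ∨ ∃ w, adjK 3 w = true ∧ adjK w v = true := by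
    decide
  have hr : ∀ v, K23.Reachable 3 v := by
    intro v
    rcases h v with rfl | h | ⟨w, h1, h2⟩
    · exact SimpleGraph.Reachable.refl _
    · exact SimpleGraph.Adj.reachable (G := K23) h
    · exact (SimpleGraph.Adj.reachable (G := K23) h1).trans
        (SimpleGraph.Adj.reachable (G := K23) h2)
  exact SimpleGraph.Connected.mk fun u v => (hr u).symm.trans (hr v)

end Pool.Agent.Results.MP_95728c_co.MonotoneSweeps
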